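import Pool.Agent.MP_fcd29e_an.H81.Spec2

/-!
The four-point formula; sets with tangent discs carry no weight function.
-/

set_option autoImplicit false

open Pool.Agent.MP_fcd29e_an.H81 MeasureTheory Complex Set Filter Topology Metric Asymptotics
open scoped ContDiff ComplexConjugate ENNReal NNReal

namespace Pool.Agent.MP_fcd29e_an.H73

variable {N : ℕ}

theorem sym2 {h h' : ℝ → ℝ} {a : ℝ} (h1 : ∀ᶠ t in 𝓝 (0 : ℝ), HasDerivAt h (h' t) t)
    (h2 : HasDerivAt h' a 0) :
    Tendsto (fun r => (h r + h (-r) - 2 * h 0) / r ^ 2) (𝓝[≠] 0) (𝓝 a) := by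
  have hn : Tendsto (fun t : ℝ => -t) (𝓝 0) (𝓝 0) := by
    simpa using (continuous_neg.tendsto (0 : ℝ))
  have h3 : ∀ᶠ t in 𝓝 (0 : ℝ),
      HasDerivAt (fun r => h r + h (-r) - 2 * h 0) (h' t - h' (-t)) t := by
    filter_upwards [h1, hn.eventually h1] with t ha hb
    exact ((ha.add (hb.comp t (hasDerivAt_neg t))).sub_const (2 * h 0)).congr_deriv (by ring)
  have h4 : HasDerivAt (fun t => h' t - h' (-t)) (2 * a) 0 := by
    have hb : HasDerivAt h' a (-0) := by simpa using h2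
    exact (h2.sub (hb.comp 0 (hasDerivAt_neg (0 : ℝ)))).congr_deriv (by ring)
  refine HasDerivAt.lhopital_zero_nhdsNE (f' := fun t => h' t - h' (-t)) (g' := fun t => 2 * t)
    (h3.filter_mono nhdsWithin_le_nhds) (Eventually.of_forall fun t => ?_) ?_ ?_ ?_ ?_
  · simpa using hasDerivAt_pow 2 t
  · filter_upwards [self_mem_nhdsWithin] with t ht
    exact mul_ne_zero two_ne_zero ht
  · have := h3.self_of_nhds.continuousAt.tendsto
    have e : h 0 + h (-0) - 2 * h 0 = 0 := by rw [neg_zero]; ring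
    rw [e] at this
    exact this.mono_left nhdsWithin_le_nhds
  · have : Tendsto (fun t : ℝ => t ^ 2) (𝓝 0) (𝓝 (0 ^ 2)) := (continuous_pow 2).tendsto 0
    simpa using this.mono_left nhdsWithin_le_nhds
  · have := (hasDerivAt_iff_tendsto_slope.1 h4).const_mul (1 / 2)
    have e : 1 / 2 * (2 * a) = a := by ring
    rw [e] at this
    refine this.congr fun t => ?_
    simp only [slope_def_field, neg_zero, sub_self, sub_zero]
    ring

theorem curve {f : E N → ℝ} {y : E N} (hf : ContDiffAt ℝ ∞ f y) (w u : E N) :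
    Tendsto (fun r : ℝ => (f (y + r • w + r ^ 2 • u) + f (y + (-r) • w + (-r) ^ 2 • u) - 2 * f y) /
      r ^ 2) (𝓝[≠] 0)
      (𝓝 (fderiv ℝ (fun z => fderiv ℝ (cx f) z w) y w + 2 * fderiv ℝ (cx f) y u).re) := by
  have hF : ContDiffAt ℝ ∞ (cx f) y := contDiffAt_cx hf
  set γ : ℝ → E N := fun t => y + t • w + t ^ 2 • u with hγ
  have hγ0 : γ 0 = y := by simp [hγ]
  have hd : ∀ t, HasDerivAt γ (w + (2 * t) • u) t := fun t => by
    have a1 := ((hasDerivAt_id t).smul_const w).const_add y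
    have a2 := (hasDerivAt_pow 2 t).smul_const u
    exact (a1.add a2).congr_deriv (by simp)
  have hc : Tendsto γ (𝓝 0) (𝓝 y) := by
    have := (hd 0).continuousAt.tendsto
    rwa [hγ0] at this
  have hD : DifferentiableAt ℝ (fderiv ℝ (cx f)) y :=
    (hF.fderiv_right (m := ∞) le_rfl).differentiableAt (by simp)
  have hev : ∀ᶠ z in 𝓝 y, DifferentiableAt ℝ (cx f) z :=
    (hF.of_le (m := 1) (by exact_mod_cast le_top)).eventually (by simp) |>.mono
      fun z hz => hz.differentiableAt one_ne_zero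
  have h1 : ∀ᶠ t in 𝓝 (0 : ℝ), HasDerivAt (fun t => f (γ t))
      (fderiv ℝ (cx f) (γ t) (w + (2 * t) • u)).re t := by
    filter_upwards [hc.eventually hev] with t ht
    exact reCLM.hasFDerivAt.comp_hasDerivAt t (ht.hasFDerivAt.comp_hasDerivAt t (hd t))
  have h2 : HasDerivAt (fun t => (fderiv ℝ (cx f) (γ t) (w + (2 * t) • u)).re)
      (fderiv ℝ (fun z => fderiv ℝ (cx f) z w) y w + 2 * fderiv ℝ (cx f) y u).re 0 := by
    have b1 : HasDerivAt (fun t => fderiv ℝ (cx f) (γ t)) (fderiv ℝ (fderiv ℝ (cx f)) y w) 0 := by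
      have hD' : HasFDerivAt (fderiv ℝ (cx f)) (fderiv ℝ (fderiv ℝ (cx f)) y) (γ 0) := by
        rw [hγ0]; exact hD.hasFDerivAt
      exact (hD'.comp_hasDerivAt 0 (hd 0)).congr_deriv (by simp)
    have b2 : HasDerivAt (fun t : ℝ => w + (2 * t) • u) ((2 : ℝ) • u) 0 := by
      simpa using (((hasDerivAt_id (0 : ℝ)).const_mul 2).smul_const u).const_add w
    have b3 := reCLM.hasFDerivAt.comp_hasDerivAt 0 (b1.clm_apply b2)
    refine b3.congr_deriv ?_
    rw [fderiv_clm_apply hD (differentiableAt_const _)]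
    simp [hγ0]
  have := sym2 h1 h2
  simpa only [hγ0] using this

theorem second {F : E N → ℂ} {y : E N} (hF : ContDiffAt ℝ ∞ F y) (v : E N) :
    fderiv ℝ (fun z => fderiv ℝ F z v) y v = ∑ j, ∑ k,
      (v j * v k * dz j (dz k F) y + v j * conj (v k) * dz j (dzb k F) y +
        conj (v j) * v k * dz k (dzb j F) y + conj (v j) * conj (v k) * dzb j (dzb k F) y) := by
  have e : (fun z => fderiv ℝ F z v) = fun z => ∑ k, (v k * dz k F z + conj (v k) * dzb k F z) :=
    funext fun z => fderiv_eq F z v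
  have d1 : ∀ k, DifferentiableAt ℝ (dz k F) y := fun k => ContDiffAt.da (contDiffAt_dz k hF)
  have d2 : ∀ k, DifferentiableAt ℝ (dzb k F) y := fun k => ContDiffAt.da (contDiffAt_dzb k hF)
  rw [e, fderiv_eq]
  refine Finset.sum_congr rfl fun j _ => ?_
  rw [dz_sum j _ fun k _ => ((d1 k).const_mul _).fun_add ((d2 k).const_mul _),
    dzb_sum j _ fun k _ => ((d1 k).const_mul _).fun_add ((d2 k).const_mul _), Finset.mul_sum,
    Finset.mul_sum, ← Finset.sum_add_distrib]
  refine Finset.sum_congr rfl fun k _ => ?_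
  rw [dz_add j ((d1 k).const_mul _) ((d2 k).const_mul _),
    dzb_add j ((d1 k).const_mul _) ((d2 k).const_mul _), dz_const_mul j _ (d1 k),
    dz_const_mul j _ (d2 k), dzb_const_mul j _ (d1 k), dzb_const_mul j _ (d2 k),
    dz_dzb_comm k j hF]
  ring

theorem lap {F : E N → ℂ} {y : E N} (hF : ContDiffAt ℝ ∞ F y) (w : E N) :
    fderiv ℝ (fun z => fderiv ℝ F z w) y w +
      fderiv ℝ (fun z => fderiv ℝ F z (I • w)) y (I • w) = 4 * hess F y fun j => w j := by
  rw [second hF, second hF, ← Finset.sum_add_distrib]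
  have e : ∀ j, ∑ k, (w j * w k * dz j (dz k F) y + w j * conj (w k) * dz j (dzb k F) y +
        conj (w j) * w k * dz k (dzb j F) y + conj (w j) * conj (w k) * dzb j (dzb k F) y) +
      ∑ k, ((I • w) j * (I • w) k * dz j (dz k F) y +
        (I • w) j * conj ((I • w) k) * dz j (dzb k F) y +
        conj ((I • w) j) * (I • w) k * dz k (dzb j F) y +
        conj ((I • w) j) * conj ((I • w) k) * dzb j (dzb k F) y) =
      2 * ∑ k, dz j (dzb k F) y * w j * conj (w k) +
        2 * ∑ k, dz k (dzb j F) y * w k * conj (w j) := fun j => by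
    rw [← Finset.sum_add_distrib, Finset.mul_sum, Finset.mul_sum, ← Finset.sum_add_distrib]
    refine Finset.sum_congr rfl fun k _ => ?_
    simp only [PiLp.smul_apply, smul_eq_mul, map_mul, conj_I]
    linear_combination (w j * w k * dz j (dz k F) y - w j * conj (w k) * dz j (dzb k F) y -
      conj (w j) * w k * dz k (dzb j F) y + conj (w j) * conj (w k) * dzb j (dzb k F) y) * I_mul_I
  rw [Finset.sum_congr rfl fun j _ => e j, Finset.sum_add_distrib, ← Finset.mul_sum,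
    ← Finset.mul_sum, Finset.sum_comm (f := fun j k => dz k (dzb j F) y * w k * conj (w j)), hess]
  ring

theorem four (f : E N → ℝ) (y w u : E N) (hf : ContDiffAt ℝ ∞ f y) :
    Tendsto (fun r => S4 f y w u r / r ^ 2) (𝓝[≠] 0)
      (𝓝 (4 * (hess (cx f) y fun j => w j).re)) := by
  have h := (curve hf w u).add (curve hf (I • w) (-u))
  have e : (fderiv ℝ (fun z => fderiv ℝ (cx f) z w) y w + 2 * fderiv ℝ (cx f) y u).re +
      (fderiv ℝ (fun z => fderiv ℝ (cx f) z (I • w)) y (I • w) +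
        2 * fderiv ℝ (cx f) y (-u)).re = 4 * (hess (cx f) y fun j => w j).re := by
    rw [← add_re, map_neg]
    have := lap (contDiffAt_cx hf) w
    have e2 : fderiv ℝ (fun z => fderiv ℝ (cx f) z w) y w + 2 * fderiv ℝ (cx f) y u +
        (fderiv ℝ (fun z => fderiv ℝ (cx f) z (I • w)) y (I • w) + 2 * -fderiv ℝ (cx f) y u) =
        4 * hess (cx f) y fun j => w j := by rw [← this]; ring
    rw [e2]; simp
  rw [e] at h
  refine h.congr fun r => ?_
  simp only [S4]
  ring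

theorem near {φ : E N → ℝ} {K : Set (E N)} {p : E N} (hp : p ∈ K) (hφ : ContDiffAt ℝ ∞ φ p)
    (hm : ∀ z ∈ K, φ z ≤ φ p) :
    ∃ L : ℝ, ∀ᶠ y in 𝓝 p, φ y ≤ φ p + L * infDist y K := by
  obtain ⟨L, t, ht, hL⟩ := (hφ.of_le (m := 1) (by exact_mod_cast le_top)).exists_lipschitzOnWith
  obtain ⟨δ, hδ, hb⟩ := Metric.mem_nhds_iff.1 ht
  refine ⟨L, ?_⟩
  filter_upwards [ball_mem_nhds p (show 0 < δ / 3 by positivity)] with y hy
  have hy' : dist y p < δ / 3 := hy
  have key : ∀ η > 0, η < δ / 3 → φ y ≤ φ p + L * infDist y K + L * η := fun η hη hη' => by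
    obtain ⟨k, hk, hd⟩ := (infDist_lt_iff ⟨p, hp⟩).1 (show infDist y K < infDist y K + η by linarith)
    have h1 : infDist y K ≤ dist y p := infDist_le_dist_of_mem hp
    have h2 : dist k p < δ := by
      have := dist_triangle_left k p y
      linarith
    have h3 := hL.dist_le_mul y (hb (show dist y p < δ by linarith)) k (hb h2)
    have h4 : φ y - φ k ≤ dist (φ y) (φ k) := by rw [Real.dist_eq]; exact le_abs_self _
    have h5 := mul_le_mul_of_nonneg_left hd.le L.coe_nonneg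
    have := hm k hk
    linarith
  have hl : Tendsto (fun η : ℝ => φ p + L * infDist y K + L * η) (𝓝[>] 0)
      (𝓝 (φ p + L * infDist y K + L * 0)) :=
    (Continuous.tendsto (by fun_prop) 0).mono_left nhdsWithin_le_nhds
  rw [mul_zero, add_zero] at hl
  refine ge_of_tendsto hl ?_
  filter_upwards [Ioo_mem_nhdsGT (show (0 : ℝ) < δ / 3 by positivity)] with η hη
  exact key η hη.1 hη.2

theorem cv_I (ρ : E N → ℝ) (p w : E N) : cv ρ p (I • w) = -cv ρ p w := by
  have : ∑ j, ∑ l, dz j (dz l (cx ρ)) p * (I • w) j * (I • w) l =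
      -∑ j, ∑ l, dz j (dz l (cx ρ)) p * w j * w l := by
    rw [← Finset.sum_neg_distrib]
    refine Finset.sum_congr rfl fun j _ => ?_
    rw [← Finset.sum_neg_distrib]
    refine Finset.sum_congr rfl fun l _ => ?_
    simp only [PiLp.smul_apply, smul_eq_mul]
    linear_combination (dz j (dz l (cx ρ)) p * w j * w l) * I_mul_I
  rw [cv, cv, this, ← neg_smul]
  congr 1
  ring

theorem fp (L : Lv0) : StmtFP := by
  intro N
  refine ⟨four, fun ρ K hρ hK hT => ?_⟩
  rintro ⟨φ, hφ, hpos⟩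
  obtain ⟨-, -, -, hP⟩ := L.pf N
  obtain ⟨hopen, -, -, hreg, htr, -, hbd⟩ := hP ρ hρ
  have hK0 : ∀ z ∈ K, z ≠ 0 := fun z hz h => hK.cone.1 (h ▸ hz)
  have hKR : ∀ z ∈ K, z ∈ Reg ρ := fun z hz => (hbd z (hK0 z hz) (hK.bd z hz)).1
  have hsm : ∀ z ∈ K, ContDiffAt ℝ ∞ φ z := fun z hz =>
    hφ.1.contDiffAt (hopen.mem_nhds (hKR z hz))
  have hS : ∀ z ∈ insert (0 : E N) K ∩ sphere 0 1, z ∈ K := fun z hz => by
    rcases hz.1 with h | h
    · have := hz.2; rw [h] at this; simp at this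
    · exact h
  have hn : ∀ z ∈ K, ((‖z‖⁻¹ : ℝ) : ℂ) ≠ 0 ∧
      ((‖z‖⁻¹ : ℝ) : ℂ) • z ∈ insert (0 : E N) K ∩ sphere 0 1 := fun z hz => by
    have h0 : ‖z‖ ≠ 0 := norm_ne_zero_iff.2 (hK0 z hz)
    have h1 : ((‖z‖⁻¹ : ℝ) : ℂ) ≠ 0 := by exact_mod_cast inv_ne_zero h0
    refine ⟨h1, mem_insert_of_mem _ (hK.cone.2 _ h1 z hz), ?_⟩
    simp [norm_smul, h0]
  obtain ⟨z₀, hz₀⟩ := hK.ne
  obtain ⟨p, hpS, hmax⟩ := ((isCompact_sphere (0 : E N) 1).inter_left hK.closed).exists_isMaxOn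
    ⟨_, (hn z₀ hz₀).2⟩ (f := φ) fun z hz => (hsm z (hS z hz)).continuousAt.continuousWithinAt
  have hp := hS p hpS
  have hm : ∀ z ∈ K, φ z ≤ φ p := fun z hz => by
    rw [← hφ.2 _ (hn z hz).1 z]; exact hmax (hn z hz).2
  have h1 := hpos p hp
  rw [(htr p (hKR p hp) φ (hsm p hp)).2.1] at h1
  obtain ⟨c, -, hc⟩ := Finset.exists_lt_of_sum_lt (s := Finset.univ) (f := fun _ => (0 : ℝ))
    (g := fun c => (hess (cx φ) p fun j => PP ρ p j c).re) (by simpa using h1)
  set w : E N := WithLp.toLp 2 fun j => PP ρ p j c with hw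
  have hw0 : av ρ p w = 0 := ((hreg p (hKR p hp)).2.2.2.2.2.2.1 c).1
  have hw1 : av ρ p (I • w) = 0 := by
    have : av ρ p (I • w) = I * av ρ p w := by
      simp only [av, Finset.mul_sum, PiLp.smul_apply, smul_eq_mul]
      exact Finset.sum_congr rfl fun j _ => by ring
    rw [this, hw0, mul_zero]
  obtain ⟨C, hC⟩ := near hp (hsm p hp) hm
  have hneg : Tendsto (fun t : ℝ => -t) (𝓝 0) (𝓝 0) := by
    simpa using (continuous_neg.tendsto (0 : ℝ))
  have hcur : ∀ v u : E N, (fun t : ℝ => infDist (p + t • v + t ^ 2 • u) K) =o[𝓝 0]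
      (fun t => t ^ 2) → ∃ g : ℝ → ℝ, Tendsto (fun r => g r / r ^ 2) (𝓝 0) (𝓝 0) ∧
      ∀ᶠ r in 𝓝 (0 : ℝ), φ (p + r • v + r ^ 2 • u) + φ (p + (-r) • v + (-r) ^ 2 • u) ≤
        2 * φ p + g r := fun v u h => by
    have hc : Tendsto (fun t : ℝ => p + t • v + t ^ 2 • u) (𝓝 0) (𝓝 p) := by
      have : Continuous fun t : ℝ => p + t • v + t ^ 2 • u := by fun_prop
      simpa using this.tendsto 0
    have h' : (fun t : ℝ => infDist (p + (-t) • v + (-t) ^ 2 • u) K) =o[𝓝 0] fun t => t ^ 2 :=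
      (h.comp_tendsto hneg).congr_right fun t => by simp
    refine ⟨fun r => C * (infDist (p + r • v + r ^ 2 • u) K +
      infDist (p + (-r) • v + (-r) ^ 2 • u) K), ((h.add h').const_mul_left C).tendsto_div_nhds_zero,
      ?_⟩
    filter_upwards [hc.eventually hC, hneg.eventually (hc.eventually hC)] with r a b
    linarith
  obtain ⟨g₁, t₁, e₁⟩ := hcur w _ (hT p hp w hw0)
  obtain ⟨g₂, t₂, e₂⟩ := hcur (I • w) _ (hT p hp _ hw1)
  rw [cv_I] at e₂
  have hle : 4 * (hess (cx φ) p fun j => w j).re ≤ 0 + 0 := by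
    refine le_of_tendsto_of_tendsto (four φ p w (cv ρ p w) (hsm p hp))
      ((t₁.add t₂).mono_left nhdsWithin_le_nhds) ?_
    filter_upwards [nhdsWithin_le_nhds e₁, nhdsWithin_le_nhds e₂] with r a b
    rw [← add_div]
    refine div_le_div_of_nonneg_right ?_ (sq_nonneg r)
    simp only [S4]
    linarith
  have : (hess (cx φ) p fun j => w j).re = (hess (cx φ) p fun j => PP ρ p j c).re := rfl
  linarith

end Pool.Agent.MP_fcd29e_an.H73
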